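import Pool.Agent.MP_6b3e96_gt.H77.Appr
import Pool.Agent.MP_6b3e96_gt.H6.Lift
import Pool.Agent.MP_6b3e96_gt.H16.Alg
import Pool.Agent.MP_6b3e96_gt.H17.Turn
import Pool.Agent.MP_6b3e96_gt.H20.Local
import Pool.Agent.MP_6b3e96_gt.H28.Brandt
import Pool.Agent.MP_6b3e96_gt.H28.Fold
import Pool.Agent.MP_6b3e96_gt.H30.Global
import Pool.Agent.MP_6b3e96_gt.H31.Cert
import Pool.Agent.MP_6b3e96_gt.H39.Close
import Pool.Agent.MP_6b3e96_gt.H48.Area
import Pool.Agent.MP_6b3e96_gt.H61.Solve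
import Pool.Agent.MP_6b3e96_gt.H69.Bonnet
import Pool.Agent.MP_6b3e96_gt.H69.Frame
import Pool.Agent.MP_6b3e96_gt.H72.Cell
import Pool.Agent.MP_6b3e96_gt.H75.Fix
import Pool.Agent.MP_6b3e96_gt.H78.Group
import Pool.Agent.MP_6b3e96_gt.H83.Flat
import Pool.Agent.MP_6b3e96_gt.H84.Final
import Pool.Agent.MP_6b3e96_gt.H96.Grad
import Pool.Agent.MP_6b3e96_gt.H98.Reg

/-!
A closed embedded minimal surface of genus 73 of the round three-sphere with Morse index at most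
138, which is less than `2 * 73 + 3 = 149`.
-/

open Set Pool.Agent.MP_6b3e96_gt Pool.Agent.MP_6b3e96_gt.H77

namespace Pool.Agent.Results.MP_6b3e96_gt.Genus73

theorem result : ∃ S : MinSurf, S.HasGenus 73 ∧ S.IndexLE 138 := by
  obtain ⟨om, h1, h2⟩ := H61.solve H75.fix H28.foldGreen H98.reg kap UU bb appr
  have hO : ∀ d ∈ Icc (-1 : ℝ) 1, ∃ u, Om (kap d) (om d) u := fun d hd => by
    obtain ⟨a1, a2, L, a3⟩ := h1 d hd
    obtain ⟨u, b1, b2, b3⟩ := H6.lift H98.green H98.reg _ L _ a1 a3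
    exact ⟨u, H96.grad H28.brandt kap UU bb appr d hd _ u a1 a2 b1 b2 b3⟩
  choose! u hu using hO
  choose! y n p c1 c2 c3 using fun d hd =>
    H17.turn (H69.bonnet H83.flat) H69.frame H69.rigid _ _ _ (hu d hd)
  have hne : ∀ s : ℝ, (⟨s, 1⟩ : ℂ) ≠ 0 := fun s h => by simpa using congrArg Complex.im h
  obtain ⟨d, hd, hy⟩ := H39.close (fun d s => om d ⟨s, 1⟩) y n p (fun d hd => ⟨
    (hu d hd).sm.continuousOn.comp
      (Complex.equivRealProdCLM.symm.continuous.comp (Continuous.prodMk_left 1)).continuousOn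
      fun s hs => ⟨⟨⟨by linarith [hs.1], by linarith [hs.2]⟩, by norm_num⟩, hne s⟩,
    fun s hs => by
      have a1 := (h1 d hd).2.1 ⟨s, 1⟩ ⟨hs, by norm_num⟩ (hne s)
      have a2 := z3 d 0 (s * s)
      rw [Z3, c_one, ← sub_eq_zero.1 (z1 d (s * s) 1)] at a2
      rwa [om0, UU, Uf, mul_one, a2, zero_add,
        mul_div_cancel_left₀ _ (norm_ne_zero_iff.2 (hne s))] at a1,
    c1 d hd, c2 d hd⟩) h2
  obtain ⟨P, hP⟩ := c3 d hd hy
  obtain ⟨φ, σ₁, σ₂, L, hC⟩ := H31.cert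
  refine H84.final H20.localBound H16.alg H78.group (H30.global H78.group H48.area)
    (H72.cell H78.group) P Vp φ σ₁ σ₂ L hC fun w hw h0 => le_trans ?_ (le_Vp hd w hw h0)
  have a1 := abs_le.1 ((h1 d hd).2.1 w hw h0)
  have a2 : 0 < UU d w / ‖w‖ := div_pos (by linarith [(UU_bd hd w hw).1]) (norm_pos_iff.2 h0)
  have a3 : Real.exp 0.0004 ≤ 1.0009 :=
    (Real.exp_bound_div_one_sub_of_interval (by norm_num) (by norm_num)).trans (by norm_num)
  have a4 : Real.exp (2 * om d w) ≤ 1.0009 * (UU d w / ‖w‖) := by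
    refine le_trans ?_ (mul_le_mul_of_nonneg_right a3 a2.le)
    rw [← Real.exp_log a2, ← Real.exp_add, Real.exp_le_exp]
    unfold om0 at a1
    linarith
  have a5 : Real.exp (-2 * om d w) ≤ 1.0009 * (‖w‖ / UU d w) := by
    rw [← inv_div]
    refine le_trans ?_ (mul_le_mul_of_nonneg_right a3 (inv_pos.2 a2).le)
    rw [← Real.exp_log a2, ← Real.exp_neg, ← Real.exp_add, Real.exp_le_exp]
    unfold om0 at a1
    linarith
  rw [hP w hw h0]
  nlinarith [mul_le_mul_of_nonneg_left a4 (hu d hd).pos.le]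

end Pool.Agent.Results.MP_6b3e96_gt.Genus73
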